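import Mathlib

/-! Combinatorial lemmas: the potential, the covering lemma and the selection lemma. -/

set_option autoImplicit false

namespace Pool.Agent.H710Z.LR

open Finset

/-- the concave weight of a class with `s` atoms -/
def G (L s : ℕ) : ℕ := ∑ j ∈ range s, (L - Nat.log 2 (j + 1))

lemma G_zero (L : ℕ) : G L 0 = 0 := by simp [G]

lemma G_mono (L : ℕ) {s s' : ℕ} (h : s ≤ s') : G L s ≤ G L s' :=
  sum_le_sum_of_subset (range_subset_range.2 h)

lemma G_le (L s : ℕ) : G L s ≤ L * s := by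
  unfold G
  refine (sum_le_card_nsmul _ _ L (fun j _ => Nat.sub_le _ _)).trans ?_
  simp [mul_comm]

lemma le_G (L s : ℕ) (hs : s < 2 ^ L) : s ≤ G L s := by
  unfold G
  have := card_nsmul_le_sum (range s) (fun j => L - Nat.log 2 (j + 1)) 1 (fun j hj => by
    have h1 : j + 1 < 2 ^ L := by
      have := mem_range.1 hj
      omega
    have h2 : Nat.log 2 (j + 1) < L := Nat.log_lt_of_lt_pow (by omega) h1
    omega)
  simpa using this

lemma G_merge (L u s : ℕ) (hsu : s ≤ u) (h : u + s < 2 ^ L) : G L (u + s) + s ≤ G L u + G L s := by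
  unfold G
  rw [sum_range_add]
  have : ∑ j ∈ range s, (L - Nat.log 2 (u + j + 1)) + s ≤
      ∑ j ∈ range s, (L - Nat.log 2 (j + 1)) := by
    have h0 : s = ∑ _j ∈ range s, 1 := by simp
    nth_rewrite 2 [h0]
    rw [← sum_add_distrib]
    refine sum_le_sum (fun j hj => ?_)
    have hj' := mem_range.1 hj
    have h1 : Nat.log 2 (u + j + 1) < L := Nat.log_lt_of_lt_pow (by omega) (by omega)
    have h2 : Nat.log 2 ((j + 1) * 2) = Nat.log 2 (j + 1) + 1 :=
      Nat.log_mul_base (by norm_num) (by omega)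
    have h3 : Nat.log 2 ((j + 1) * 2) ≤ Nat.log 2 (u + j + 1) :=
      Nat.log_mono_right (by omega)
    omega
  omega

lemma G_family {β : Type*} [DecidableEq β] (L : ℕ) (n : β → ℕ) (u : ℕ) (T : Finset β)
    (hu : ∀ a ∈ T, n a ≤ u) (h : u + ∑ a ∈ T, n a < 2 ^ L) :
    G L (u + ∑ a ∈ T, n a) + ∑ a ∈ T, n a ≤ G L u + ∑ a ∈ T, G L (n a) := by
  induction T using Finset.induction_on with
  | empty => simp
  | insert a T ha ih =>
    rw [sum_insert ha] at h
    rw [sum_insert ha, sum_insert ha]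
    have h1 := ih (fun b hb => hu b (mem_insert_of_mem hb)) (by omega)
    have h2 := G_merge L (u + ∑ a ∈ T, n a) (n a)
      ((hu a (mem_insert_self _ _)).trans (Nat.le_add_right _ _)) (by omega)
    have e : u + (n a + ∑ a ∈ T, n a) = u + ∑ a ∈ T, n a + n a := by ring
    rw [e]
    omega

section
variable {α β : Type*} [Fintype β] [DecidableEq β]

/-- the potential of the partition of `C` into the fibres of `k` -/
def pot (L : ℕ) (C : Finset α) (k : α → β) : ℕ := ∑ b, G L (C.filter (fun τ => k τ = b)).card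

/-- the same, without the fibre over `o` -/
def potNE (L : ℕ) (C : Finset α) (k : α → β) (o : β) : ℕ :=
  ∑ b ∈ univ.erase o, G L (C.filter (fun τ => k τ = b)).card

lemma sum_fib (C : Finset α) (k : α → β) : ∑ b, (C.filter (fun τ => k τ = b)).card = C.card :=
  (card_eq_sum_card_fiberwise (f := k) (s := C) (t := univ) (fun _ _ => mem_coe.2 (mem_univ _))).symm

lemma pot_le (L : ℕ) (C : Finset α) (k : α → β) : pot L C k ≤ L * C.card := by
  unfold pot
  rw [← sum_fib C k, mul_sum]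
  exact sum_le_sum (fun b _ => G_le _ _)

lemma le_pot (L : ℕ) (C : Finset α) (k : α → β) (hC : C.card < 2 ^ L) : C.card ≤ pot L C k := by
  unfold pot
  rw [← sum_fib C k]
  exact sum_le_sum (fun b _ => le_G _ _ (lt_of_le_of_lt (card_filter_le _ _) hC))

theorem drop (L : ℕ) (C : Finset α) (k : α → β) (h : β → β) (o : β) (hC : C.card < 2 ^ L) :
    ∃ K, K ⊆ C ∧ (∀ τ ∈ K, h (k τ) ≠ o) ∧ (∀ τ ∈ K, ∀ σ ∈ K, h (k τ) = h (k σ) → k τ = k σ) ∧
      potNE L C (fun τ => h (k τ)) o + C.card ≤ pot L C k + K.card := by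
  classical
  set n : β → ℕ := fun a => (C.filter (fun τ => k τ = a)).card with hn
  set F : β → Finset β := fun b => univ.filter (fun a => h a = b) with hF
  have hmax : ∀ b, ∃ a₀, ∀ a, h a = b → h a₀ = b ∧ n a ≤ n a₀ := by
    intro b
    rcases (F b).eq_empty_or_nonempty with he | hne
    · refine ⟨b, fun a ha => ?_⟩
      have : a ∈ F b := mem_filter.2 ⟨mem_univ _, ha⟩
      rw [he] at this
      simp at this
    · obtain ⟨a₀, h1, h2⟩ := exists_max_image (F b) n hne
      exact ⟨a₀, fun a ha => ⟨(mem_filter.1 h1).2, h2 a (mem_filter.2 ⟨mem_univ _, ha⟩)⟩⟩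
  choose a₀ ha₀ using hmax
  set K := C.filter (fun τ => h (k τ) ≠ o ∧ k τ = a₀ (h (k τ))) with hK
  have hn'' : ∀ b, (C.filter (fun τ => h (k τ) = b)).card = ∑ a ∈ F b, n a := by
    intro b
    rw [card_eq_sum_card_fiberwise (f := k) (s := C.filter (fun τ => h (k τ) = b)) (t := F b)]
    · refine sum_congr rfl (fun a ha => ?_)
      have h1 := (mem_filter.1 ha).2
      simp only [hn]
      congr 1
      ext τ
      simp only [mem_filter]
      constructor
      · rintro ⟨⟨h2, _⟩, h3⟩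
        exact ⟨h2, h3⟩
      · rintro ⟨h2, h3⟩
        exact ⟨⟨h2, h3 ▸ h1⟩, h3⟩
    · intro τ hτ
      exact mem_coe.2 (mem_filter.2 ⟨mem_univ _, (mem_filter.1 hτ).2⟩)
  have hlt : ∀ b, ∑ a ∈ F b, n a < 2 ^ L := by
    intro b
    rw [← hn'']
    exact lt_of_le_of_lt (card_filter_le _ _) hC
  have hb : ∀ b, b ≠ o → G L (∑ a ∈ F b, n a) + ∑ a ∈ F b, n a ≤
      ∑ a ∈ F b, G L (n a) + (K.filter (fun τ => h (k τ) = b)).card := by
    intro b hbo
    rcases (F b).eq_empty_or_nonempty with he | ⟨a, ha⟩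
    · rw [he]
      simp [G_zero]
    · have h1 := (ha₀ b a (mem_filter.1 ha).2).1
      have h2 : a₀ b ∈ F b := mem_filter.2 ⟨mem_univ _, h1⟩
      have h3 : (K.filter (fun τ => h (k τ) = b)).card = n (a₀ b) := by
        simp only [hn]
        congr 1
        ext τ
        simp only [hK, mem_filter]
        constructor
        · rintro ⟨⟨h4, _, h5⟩, h6⟩
          exact ⟨h4, h6 ▸ h5⟩
        · rintro ⟨h4, h5⟩
          have h6 : h (k τ) = b := h5 ▸ h1
          exact ⟨⟨h4, h6 ▸ hbo, h6 ▸ h5⟩, h6⟩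
      have h4 := hlt b
      rw [← add_sum_erase _ _ h2] at h4
      have h5 := G_family L n (n (a₀ b)) ((F b).erase (a₀ b))
        (fun a ha => (ha₀ b a (mem_filter.1 (mem_of_mem_erase ha)).2).2) h4
      rw [h3, ← add_sum_erase _ _ h2, ← add_sum_erase _ (fun a => G L (n a)) h2]
      omega
  have ho : ∑ a ∈ F o, n a ≤ ∑ a ∈ F o, G L (n a) :=
    sum_le_sum (fun a _ => le_G _ _ (lt_of_le_of_lt (card_filter_le _ _) hC))
  refine ⟨K, filter_subset _ _, fun τ hτ => (mem_filter.1 hτ).2.1, ?_, ?_⟩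
  · intro τ hτ σ hσ he
    rw [(mem_filter.1 hτ).2.2, (mem_filter.1 hσ).2.2, he]
  · have e1 : pot L C k = ∑ b, ∑ a ∈ F b, G L (n a) := by
      unfold pot
      exact (sum_fiberwise univ h (fun a => G L (n a))).symm
    have e2 : C.card = ∑ b, ∑ a ∈ F b, n a := by
      rw [← sum_fib C (fun τ => h (k τ))]
      exact sum_congr rfl (fun b _ => hn'' b)
    have e3 : potNE L C (fun τ => h (k τ)) o = ∑ b ∈ univ.erase o, G L (∑ a ∈ F b, n a) := by
      unfold potNE
      exact sum_congr rfl (fun b _ => by rw [hn'' b])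
    have e4 : ∑ b ∈ univ.erase o, (K.filter (fun τ => h (k τ) = b)).card ≤ K.card := by
      rw [← sum_fib K (fun τ => h (k τ))]
      exact sum_le_sum_of_subset (erase_subset _ _)
    have e5 := sum_le_sum (s := univ.erase o) (fun b hb' => hb b (mem_erase.1 hb').1)
    rw [sum_add_distrib, sum_add_distrib] at e5
    rw [e1, e2, e3, ← add_sum_erase _ _ (mem_univ o),
      ← add_sum_erase _ (fun b => ∑ a ∈ F b, G L (n a)) (mem_univ o)]
    omega

end

/-- covering lemma -/
theorem cover {X κ : Type*} [DecidableEq X] [DecidableEq κ] (A : κ → Finset X)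
    (Poor : Finset X → Prop) (n : ℕ) : ∀ (Ts : Finset κ) (D : Finset X), Ts.card ≤ n →
    ∃ (Ps : Finset (Finset X)) (V : Finset X), Ps.card ≤ Ts.card ∧ (∀ P ∈ Ps, Poor P ∧ P ⊆ D) ∧
      V ⊆ D ∧ (∀ x ∈ D, x ∈ V ∨ ∃ P ∈ Ps, x ∈ P) ∧
      ∀ s ∈ Ts, (V ∩ A s).Nonempty → ¬ Poor (V ∩ A s) := by
  induction n with
  | zero =>
    intro Ts D h
    have : Ts = ∅ := card_eq_zero.1 (by omega)
    subst this
    exact ⟨∅, D, by simp, by simp, subset_refl _, fun x hx => Or.inl hx, by simp⟩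
  | succ n ih =>
    intro Ts D h
    by_cases hex : ∃ s ∈ Ts, Poor (D ∩ A s)
    · obtain ⟨s, hs, hp⟩ := hex
      obtain ⟨Ps, V, h1, h2, h3, h4, h5⟩ := ih (Ts.erase s) (D \ A s)
        (by rw [card_erase_of_mem hs]; omega)
      refine ⟨insert (D ∩ A s) Ps, V, ?_, ?_, h3.trans sdiff_subset, ?_, ?_⟩
      · have := card_insert_le (D ∩ A s) Ps
        rw [card_erase_of_mem hs] at h1
        have : 0 < Ts.card := card_pos.2 ⟨s, hs⟩
        omega
      · intro P hP
        rcases mem_insert.1 hP with rfl | hP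
        · exact ⟨hp, inter_subset_left⟩
        · exact ⟨(h2 P hP).1, (h2 P hP).2.trans sdiff_subset⟩
      · intro x hx
        by_cases hxs : x ∈ A s
        · exact Or.inr ⟨_, mem_insert_self _ _, mem_inter.2 ⟨hx, hxs⟩⟩
        · rcases h4 x (mem_sdiff.2 ⟨hx, hxs⟩) with h6 | ⟨P, hP, hxP⟩
          · exact Or.inl h6
          · exact Or.inr ⟨P, mem_insert_of_mem hP, hxP⟩
      · intro s' hs' hne
        by_cases hss : s' = s
        · subst hss
          obtain ⟨x, hx⟩ := hne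
          have h6 := mem_inter.1 hx
          exact absurd h6.2 (mem_sdiff.1 (h3 h6.1)).2
        · exact h5 s' (mem_erase.2 ⟨hss, hs'⟩) hne
    · push Not at hex
      exact ⟨∅, D, by simp, by simp, subset_refl _, fun x hx => Or.inl hx,
        fun s hs _ => hex s hs⟩

/-- selection lemma -/
theorem select {α : Type*} [DecidableEq α] (C : Finset α) (Feas : Finset α → Prop)
    (Gd : Finset α → α → Prop) (k β : ℕ) (h0 : Feas ∅)
    (hher : ∀ S j, Feas S → Feas (S.erase j))
    (hstep : ∀ S, S ⊆ C → S.card ≤ k → Feas S → ∃ H, H ⊆ C ∧ C.card ≤ H.card + β ∧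
      ∀ i ∈ H, Feas (insert i S) ∧ Gd S i)
    (hnum : (k + 2) * β + k < C.card) :
    ∃ S, S ⊆ C ∧ S.card = k + 1 ∧ Feas S ∧ ∀ j ∈ S, Gd (S.erase j) j := by
  classical
  choose! H hHC hHcard hH using hstep
  have hβ : β + k < C.card := by nlinarith
  have hne : ∀ i, i ≤ k → ∃ S, S ⊆ C ∧ S.card = i ∧ Feas S := by
    intro i
    induction i with
    | zero => exact fun _ => ⟨∅, empty_subset _, rfl, h0⟩
    | succ i ih =>
      intro hi
      obtain ⟨S, h1, h2, h3⟩ := ih (by omega)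
      have h4 := hHcard S h1 (by omega) h3
      have h5 : S.card < (H S).card := by omega
      obtain ⟨x, hx, hxS⟩ := exists_mem_notMem_of_card_lt_card h5
      refine ⟨insert x S, ?_, by rw [card_insert_of_notMem hxS, h2], (hH S h1 (by omega) h3 x hx).1⟩
      exact insert_subset (hHC S h1 (by omega) h3 hx) h1
  by_contra hcon
  push Not at hcon
  set F₀ := (C.powersetCard k).filter Feas with hF₀
  set F₁ := (C.powersetCard (k + 1)).filter Feas with hF₁
  have hF₀' : ∀ S, S ∈ F₀ ↔ S ⊆ C ∧ S.card = k ∧ Feas S := by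
    intro S
    simp only [hF₀, mem_filter, mem_powersetCard, and_assoc]
  have hF₁' : ∀ S, S ∈ F₁ ↔ S ⊆ C ∧ S.card = k + 1 ∧ Feas S := by
    intro S
    simp only [hF₁, mem_filter, mem_powersetCard, and_assoc]
  have hpos : 0 < F₀.card := by
    obtain ⟨S, hS⟩ := hne k le_rfl
    exact card_pos.2 ⟨S, (hF₀' S).2 hS⟩
  have hA : (F₀.sigma (fun S => H S \ S)).card ≤ (F₁.sigma (fun S => S)).card := by
    refine card_le_card_of_injOn (fun p => ⟨insert p.2 p.1, p.2⟩) ?_ ?_
    · rintro ⟨S, i⟩ hp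
      rw [mem_coe, mem_sigma] at hp ⊢
      obtain ⟨h1, h2⟩ := hp
      obtain ⟨h3, h4, h5⟩ := (hF₀' S).1 h1
      rw [mem_sdiff] at h2
      refine ⟨(hF₁' _).2 ⟨insert_subset (hHC S h3 h4.le h5 h2.1) h3, ?_,
        (hH S h3 h4.le h5 i h2.1).1⟩, mem_insert_self _ _⟩
      rw [card_insert_of_notMem h2.2, h4]
    · rintro ⟨S, i⟩ hp ⟨S', i'⟩ hp' he
      rw [mem_coe, mem_sigma, mem_sdiff] at hp hp'
      simp only [Sigma.mk.injEq, heq_eq_eq] at he
      obtain ⟨h1, h2⟩ := he
      subst h2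
      have : S = S' := by
        have h3 : i ∉ S := hp.2.2
        have h4 : i ∉ S' := hp'.2.2
        rw [← erase_insert h3, h1, erase_insert h4]
      subst this
      rfl
  have hbad : ∀ S ∈ F₁, ∃ j ∈ S, ¬ Gd (S.erase j) j := by
    intro S hS
    obtain ⟨h1, h2, h3⟩ := (hF₁' S).1 hS
    exact hcon S h1 h2 h3
  obtain ⟨x₀, _⟩ : C.Nonempty := card_pos.1 (by omega)
  have : Nonempty α := ⟨x₀⟩
  choose! b hbS hb using hbad
  have hB : F₁.card ≤ (F₀.sigma (fun S => C \ H S)).card := by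
    refine card_le_card_of_injOn (fun S => ⟨S.erase (b S), b S⟩) ?_ ?_
    · intro S hS
      rw [mem_coe] at hS
      rw [mem_coe, mem_sigma]
      obtain ⟨h1, h2, h3⟩ := (hF₁' S).1 hS
      have h4 : (S.erase (b S)).card = k := by
        rw [card_erase_of_mem (hbS S hS), h2]
        rfl
      have h5 : S.erase (b S) ⊆ C := (erase_subset _ _).trans h1
      refine ⟨(hF₀' _).2 ⟨h5, h4, hher S _ h3⟩, mem_sdiff.2 ⟨h1 (hbS S hS), fun h => ?_⟩⟩
      exact hb S hS (hH _ h5 h4.le (hher S _ h3) _ h).2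
    · intro S hS S' hS' he
      rw [mem_coe] at hS hS'
      simp only [Sigma.mk.injEq, heq_eq_eq] at he
      rw [← insert_erase (hbS S hS), ← insert_erase (hbS S' hS'), he.1, he.2]
  rw [card_sigma, card_sigma] at hA
  rw [card_sigma] at hB
  have h1 : F₀.card * (C.card - β - k) ≤ ∑ S ∈ F₀, (H S \ S).card := by
    rw [← smul_eq_mul]
    refine card_nsmul_le_sum _ _ _ (fun S hS => ?_)
    obtain ⟨h3, h4, h5⟩ := (hF₀' S).1 hS
    have h6 := hHcard S h3 h4.le h5
    have h7 := le_card_sdiff S (H S)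
    omega
  have h2 : ∑ S ∈ F₁, S.card = F₁.card * (k + 1) := by
    rw [← smul_eq_mul]
    exact sum_const_nat (fun S hS => ((hF₁' S).1 hS).2.1)
  have h3 : ∑ S ∈ F₀, (C \ H S).card ≤ F₀.card * β := by
    rw [← smul_eq_mul]
    refine sum_le_card_nsmul _ _ _ (fun S hS => ?_)
    obtain ⟨h3, h4, h5⟩ := (hF₀' S).1 hS
    have h6 := hHcard S h3 h4.le h5
    rw [card_sdiff_of_subset (hHC S h3 h4.le h5)]
    omega
  have h4 : F₀.card * (C.card - β - k) ≤ F₀.card * (β * (k + 1)) := by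
    calc F₀.card * (C.card - β - k) ≤ F₁.card * (k + 1) := by omega
      _ ≤ (F₀.card * β) * (k + 1) := Nat.mul_le_mul_right _ (by omega)
      _ = F₀.card * (β * (k + 1)) := by ring
  have h5 := Nat.le_of_mul_le_mul_left h4 hpos
  have h6 : (k + 2) * β = β * (k + 1) + β := by ring
  omega

end Pool.Agent.H710Z.LR
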