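import Pool.Agent.H710Z.LR.Sparse
import Pool.Agent.H710Z.LR.Comb

/-! The key lemma: one of the two sides is covered by few poor sets. -/

set_option autoImplicit false

namespace Pool.Agent.H710Z.LR

open Finset

section
variable {α Z : Type*} [DecidableEq Z]

/-- Restricting to `V` kills or merges fewer than `e` atoms. -/
def Rich (C : Finset α) (k : α → Finset Z) (e : ℕ) (V : Finset Z) : Prop :=
  ∃ K, K ⊆ C ∧ (∀ τ ∈ K, k τ ∩ V ≠ ∅) ∧ (∀ τ ∈ K, ∀ σ ∈ K, k τ ∩ V = k σ ∩ V → k τ = k σ) ∧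
    C.card < K.card + e

variable [Fintype Z]

lemma poor_drop (L : ℕ) (C : Finset α) (k : α → Finset Z) (e : ℕ) (V : Finset Z)
    (hC : C.card < 2 ^ L) (h : ¬ Rich C k e V) :
    potNE L C (fun τ => k τ ∩ V) ∅ + e ≤ pot L C k := by
  obtain ⟨K, h1, h2, h3, h4⟩ := drop L C k (fun a => a ∩ V) ∅ hC
  have : ¬ C.card < K.card + e := fun h5 => h ⟨K, h1, h2, h3, h5⟩
  omega

lemma potNE_le (L : ℕ) (C : Finset α) (k : α → Finset Z) (V : Finset Z)
    (hC : C.card < 2 ^ L) : potNE L C (fun τ => k τ ∩ V) ∅ ≤ pot L C k := by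
  obtain ⟨K, h1, _, _, h4⟩ := drop L C k (fun a => a ∩ V) ∅ hC
  have := card_le_card h1
  omega

end

section
variable {X Y : Type*} [DecidableEq X] [DecidableEq Y]

/-- the total weight of the rectangles containing `P × Q` -/
def val2 (C : Finset (Finset X × Finset Y)) (W : Finset X × Finset Y → ℝ) (P : Finset X)
    (Q : Finset Y) : ℝ := ∑ τ ∈ C with (P ⊆ τ.1 ∧ Q ⊆ τ.2), W τ

lemma com_disjSum (V1 : Finset X) (V2 : Finset Y) (S : Finset (Finset X × Finset Y)) :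
    com (fun τ : Finset X × Finset Y => τ.1.disjSum τ.2) (V1.disjSum V2) S =
      (com Prod.fst V1 S).disjSum (com Prod.snd V2 S) := by
  ext z
  rcases z with x | y <;> simp [mem_com]

theorem key (C : Finset (Finset X × Finset Y)) (W : Finset X × Finset Y → ℝ) (L k e : ℕ)
    (V1 : Finset X) (V2 : Finset Y) (hC : C.card < 2 ^ L) (hk : 2 * L ^ 2 ≤ k) (hk1 : 1 ≤ k)
    (hnum : (k + 2) * (4 * e) + k < C.card) (hW : ∀ τ ∈ C, W τ ≠ 0)
    (h01 : ∀ P Q, P ⊆ V1 → Q ⊆ V2 → P.Nonempty → Q.Nonempty →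
      val2 C W P Q = 0 ∨ val2 C W P Q = 1)
    (hV1 : V1.Nonempty) (hV2 : V2.Nonempty)
    (h1 : ∀ S, S ⊆ C → S.card ≤ k → (com Prod.fst V1 S).Nonempty →
      Rich C Prod.fst (e + 1) (com Prod.fst V1 S))
    (h2 : ∀ S, S ⊆ C → S.card ≤ k → (com Prod.snd V2 S).Nonempty →
      Rich C Prod.snd (e + 1) (com Prod.snd V2 S)) : False := by
  classical
  obtain ⟨S, hSC, hSk, hS, hgood⟩ := select C
    (fun S => (com Prod.fst V1 S).Nonempty ∧ (com Prod.snd V2 S).Nonempty)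
    (fun S i => ∀ σ ∈ C, σ.1 ∩ com Prod.fst V1 S = i.1 ∩ com Prod.fst V1 S →
      σ.2 ∩ com Prod.snd V2 S = i.2 ∩ com Prod.snd V2 S → σ = i) k (4 * e)
    (by
      obtain ⟨x, hx⟩ := hV1
      obtain ⟨y, hy⟩ := hV2
      exact ⟨⟨x, mem_com.2 ⟨hx, by simp⟩⟩, ⟨y, mem_com.2 ⟨hy, by simp⟩⟩⟩)
    (by
      rintro S j ⟨⟨x, hx⟩, ⟨y, hy⟩⟩
      rw [mem_com] at hx hy
      exact ⟨⟨x, mem_com.2 ⟨hx.1, fun τ hτ => hx.2 τ (mem_of_mem_erase hτ)⟩⟩,
        ⟨y, mem_com.2 ⟨hy.1, fun τ hτ => hy.2 τ (mem_of_mem_erase hτ)⟩⟩⟩)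
    (by
      rintro S hSC hSk ⟨hA, hB⟩
      obtain ⟨K1, a1, a2, a3, a4⟩ := h1 S hSC hSk hA
      obtain ⟨K2, b1, b2, b3, b4⟩ := h2 S hSC hSk hB
      set A := com Prod.fst V1 S with hAdef
      set B := com Prod.snd V2 S with hBdef
      set K := K1 ∩ K2 with hK
      have hKC : K ⊆ C := inter_subset_left.trans a1
      have hKcard : C.card ≤ K.card + 2 * e := by
        have h3 := card_union_add_card_inter K1 K2
        have h4 : (K1 ∪ K2).card ≤ C.card := card_le_card (union_subset a1 b1)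
        rw [← hK] at h3
        omega
      have hinj : ∀ τ ∈ K, ∀ σ ∈ K, σ.1 ∩ A = τ.1 ∩ A → σ.2 ∩ B = τ.2 ∩ B → σ = τ := by
        intro τ hτ σ hσ e1 e2
        exact Prod.ext (a3 σ (mem_inter.1 hσ).1 τ (mem_inter.1 hτ).1 e1)
          (b3 σ (mem_inter.1 hσ).2 τ (mem_inter.1 hτ).2 e2)
      set H := K.filter (fun i => ∀ σ ∈ C, σ.1 ∩ A = i.1 ∩ A → σ.2 ∩ B = i.2 ∩ B → σ = i) with hH
      have hex : ∀ i ∈ K \ H, ∃ σ ∈ C, σ.1 ∩ A = i.1 ∩ A ∧ σ.2 ∩ B = i.2 ∩ B ∧ σ ≠ i := by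
        intro i hi
        rw [mem_sdiff] at hi
        by_contra hcon
        push Not at hcon
        exact hi.2 (mem_filter.2 ⟨hi.1, hcon⟩)
      choose! s hs1 hs2 hs3 hs4 using hex
      have hcard : (K \ H).card ≤ (C \ K).card := by
        refine card_le_card_of_injOn s ?_ ?_
        · intro i hi
          rw [mem_coe] at hi
          rw [mem_coe, mem_sdiff]
          exact ⟨hs1 i hi, fun h => hs4 i hi (hinj i (mem_sdiff.1 hi).1 _ h (hs2 i hi) (hs3 i hi))⟩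
        · intro i hi i' hi' he
          rw [mem_coe] at hi hi'
          refine hinj i' (mem_sdiff.1 hi').1 i (mem_sdiff.1 hi).1 ?_ ?_
          · rw [← hs2 i hi, he, hs2 i' hi']
          · rw [← hs3 i hi, he, hs3 i' hi']
      have hHK : H ⊆ K := filter_subset _ _
      rw [card_sdiff_of_subset hHK, card_sdiff_of_subset hKC] at hcard
      have h5 := card_le_card hHK
      have h6 := card_le_card hKC
      refine ⟨H, hHK.trans hKC, by omega, fun i hi => ⟨⟨?_, ?_⟩, (mem_filter.1 hi).2⟩⟩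
      · obtain ⟨x, hx⟩ := nonempty_iff_ne_empty.2 (a2 i (mem_inter.1 (hHK hi)).1)
        rw [mem_inter, mem_com] at hx
        refine ⟨x, mem_com.2 ⟨hx.2.1, fun τ hτ => ?_⟩⟩
        rcases mem_insert.1 hτ with rfl | hτ
        · exact hx.1
        · exact hx.2.2 τ hτ
      · obtain ⟨y, hy⟩ := nonempty_iff_ne_empty.2 (b2 i (mem_inter.1 (hHK hi)).2)
        rw [mem_inter, mem_com] at hy
        refine ⟨y, mem_com.2 ⟨hy.2.1, fun τ hτ => ?_⟩⟩
        rcases mem_insert.1 hτ with rfl | hτ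
        · exact hy.1
        · exact hy.2.2 τ hτ)
    hnum
  have := lemmaA C W (fun τ : Finset X × Finset Y => τ.1.disjSum τ.2) (V1.disjSum V2) S L hC hSC
    (by omega) hW ?_ ?_
  · omega
  · intro R hR1 hR2
    rw [com_disjSum] at hR1
    have e : val C W (fun τ : Finset X × Finset Y => τ.1.disjSum τ.2) R =
        val2 C W R.toLeft R.toRight := by
      unfold val val2
      refine sum_congr ?_ (fun _ _ => rfl)
      ext τ
      simp only [mem_filter, subset_disjSum]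
    rw [e]
    rw [subset_disjSum] at hR2
    rw [disjSum_subset] at hR1
    exact h01 _ _ hR2.1 hR2.2 (hS.1.mono hR1.1) (hS.2.mono hR1.2)
  · intro j hj σ hσ he
    rw [com_disjSum] at he
    refine hgood j hj σ hσ ?_ ?_
    · ext x
      have := Finset.ext_iff.1 he (Sum.inl x)
      simpa using this
    · ext y
      have := Finset.ext_iff.1 he (Sum.inr y)
      simpa using this

end

end Pool.Agent.H710Z.LR
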