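import Pool.Agent.H710Z.LR.Key
import Pool.Agent.H630R2.LR.M1

/-! The protocol. -/

set_option autoImplicit false

namespace Pool.Agent.H710Z.LR

open Finset Pool.Agent.H630R2.LR

section
variable {X Y : Type*}

/-- a protocol that is correct on `D1 × D2` -/
def PD (F : X → Y → Bool) (D1 : Finset X) (D2 : Finset Y) (c : ℕ) : Prop :=
  ∃ F' : X → Y → Bool, Proto F' c ∧ ∀ x ∈ D1, ∀ y ∈ D2, F' x y = F x y

lemma PD.mono {F : X → Y → Bool} {D1 : Finset X} {D2 : Finset Y} {c c' : ℕ} (h : PD F D1 D2 c)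
    (hc : c ≤ c') : PD F D1 D2 c' := by
  obtain ⟨F', h1, h2⟩ := h
  exact ⟨F', h1.mono hc, h2⟩

lemma PD.swap {F : X → Y → Bool} {D1 : Finset X} {D2 : Finset Y} {c : ℕ} (h : PD F D1 D2 c) :
    PD (fun y x => F x y) D2 D1 c := by
  obtain ⟨F', h1, h2⟩ := h
  exact ⟨fun y x => F' x y, h1.swap, fun y hy x hx => h2 x hx y hy⟩

lemma PD.stepX {F : X → Y → Bool} {D1 : Finset X} {D2 : Finset Y} {c w : ℕ}
    (Ps : Finset (Finset X)) (hw : Ps.card + 1 ≤ 2 ^ w) (hcov : ∀ x ∈ D1, ∃ P ∈ Ps, x ∈ P)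
    (h : ∀ P ∈ Ps, PD F P D2 c) : PD F D1 D2 (c + w) := by
  classical
  have h' : ∀ P : Ps, ∃ F' : X → Y → Bool, Proto F' c ∧ ∀ x ∈ P.1, ∀ y ∈ D2, F' x y = F x y :=
    fun P => h P.1 P.2
  choose Fp hFp1 hFp2 using h'
  set g : X → Option Ps := fun x =>
    if hx : ∃ P : Ps, x ∈ P.1 then some hx.choose else none with hg
  set Fq : Option Ps → X → Y → Bool := fun q => q.elim (fun _ _ => false) Fp with hFq
  refine ⟨fun x y => Fq (g x) x y, ?_, ?_⟩
  · refine Proto.sendX _ g w (by simpa using hw) Fq c ?_ (fun _ _ => rfl)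
    rintro (_ | P)
    · exact (Proto.const _ false fun _ _ => rfl).mono (Nat.zero_le _)
    · exact hFp1 P
  · intro x hx y hy
    obtain ⟨P, hP, hxP⟩ := hcov x hx
    have hx' : ∃ P : Ps, x ∈ P.1 := ⟨⟨P, hP⟩, hxP⟩
    simp only [hg, dif_pos hx', hFq, Option.elim_some]
    exact hFp2 _ x hx'.choose_spec y hy

lemma PD.stepY {F : X → Y → Bool} {D1 : Finset X} {D2 : Finset Y} {c w : ℕ}
    (Ps : Finset (Finset Y)) (hw : Ps.card + 1 ≤ 2 ^ w) (hcov : ∀ y ∈ D2, ∃ P ∈ Ps, y ∈ P)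
    (h : ∀ P ∈ Ps, PD F D1 P c) : PD F D1 D2 (c + w) :=
  (PD.stepX (F := fun y x => F x y) Ps hw hcov (fun P hP => (h P hP).swap)).swap

end

lemma push {α γ : Type*} [DecidableEq γ] (C : Finset α) (W : α → ℝ) (φ : α → γ)
    (p q : γ → Prop) [DecidablePred p] [DecidablePred q] (hq : ∀ ρ, q ρ → p ρ) :
    ∑ ρ ∈ ((C.image φ).filter (fun ρ => p ρ ∧ (∑ τ ∈ C with φ τ = ρ, W τ) ≠ 0)) with q ρ,
      (∑ τ ∈ C with φ τ = ρ, W τ) = ∑ τ ∈ C with q (φ τ), W τ := by
  classical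
  rw [← Finset.sum_fiberwise_of_maps_to (s := C.filter (fun τ => q (φ τ)))
    (t := (C.image φ).filter q) (g := φ)]
  · rw [Finset.sum_subset (s₂ := (C.image φ).filter q)]
    · refine sum_congr rfl (fun ρ hρ => ?_)
      have h1 := (mem_filter.1 hρ).2
      refine sum_congr ?_ (fun _ _ => rfl)
      ext τ
      simp only [mem_filter]
      constructor
      · rintro ⟨h2, h3⟩
        exact ⟨⟨h2, h3 ▸ h1⟩, h3⟩
      · rintro ⟨⟨h2, _⟩, h3⟩
        exact ⟨h2, h3⟩
    · intro ρ hρ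
      simp only [mem_filter] at hρ ⊢
      exact ⟨hρ.1.1, hρ.2⟩
    · intro ρ hρ hρ'
      simp only [mem_filter] at hρ hρ'
      by_contra h
      exact hρ' ⟨⟨hρ.1, hq ρ hρ.2, h⟩, hρ.2⟩
  · intro τ hτ
    rw [mem_filter] at hτ ⊢
    exact ⟨mem_image_of_mem _ hτ.1, hτ.2⟩

lemma pot_image_le {α γ β : Type*} [DecidableEq γ] [Fintype β] [DecidableEq β] (L : ℕ)
    (C : Finset α) (φ : α → γ) (C' : Finset γ) (hC' : C' ⊆ C.image φ) (k : γ → β) (o : β)
    (ho : ∀ ρ ∈ C', k ρ ≠ o) : pot L C' k ≤ potNE L C (fun τ => k (φ τ)) o := by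
  unfold pot potNE
  rw [← add_sum_erase _ _ (mem_univ o)]
  have h0 : C'.filter (fun ρ => k ρ = o) = ∅ := by
    rw [filter_eq_empty_iff]
    exact ho
  rw [h0, card_empty, G_zero, zero_add]
  refine sum_le_sum (fun b _ => G_mono _ ?_)
  refine le_trans (card_le_card (t := (C.filter (fun τ => k (φ τ) = b)).image φ) ?_) card_image_le
  intro ρ hρ
  rw [mem_filter] at hρ
  obtain ⟨τ, h1, h2⟩ := mem_image.1 (hC' hρ.1)
  exact mem_image.2 ⟨τ, mem_filter.2 ⟨h1, h2 ▸ hρ.2⟩, h2⟩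

section
variable {X Y : Type*} [DecidableEq X] [DecidableEq Y]

/-- a signed system of rectangles representing `F` on `D1 × D2` -/
structure IsSys (F : X → Y → Bool) (D1 : Finset X) (D2 : Finset Y)
    (C : Finset (Finset X × Finset Y)) (W : Finset X × Finset Y → ℝ) : Prop where
  nz : ∀ τ ∈ C, W τ ≠ 0
  bool : ∀ P Q, P ⊆ D1 → Q ⊆ D2 → P.Nonempty → Q.Nonempty → val2 C W P Q = 0 ∨ val2 C W P Q = 1
  rep : ∀ x ∈ D1, ∀ y ∈ D2, val2 C W {x} {y} = if F x y then 1 else 0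

lemma IsSys.base {F : X → Y → Bool} {D1 : Finset X} {D2 : Finset Y}
    {C : Finset (Finset X × Finset Y)} {W : Finset X × Finset Y → ℝ} (h : IsSys F D1 D2 C W) :
    PD F D1 D2 (1 + C.card) := by
  classical
  set g : X → C.powerset := fun x =>
    ⟨C.filter (fun τ => x ∈ τ.1), mem_powerset.2 (filter_subset _ _)⟩ with hg
  set Fq : C.powerset → X → Y → Bool := fun q _ y =>
    decide ((∑ τ ∈ q.1 with y ∈ τ.2, W τ) = 1) with hFq
  refine ⟨fun x y => Fq (g x) x y, ?_, ?_⟩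
  · refine Proto.sendX _ g C.card (by simp) Fq 1 (fun q => ?_) (fun _ _ => rfl)
    exact Proto.bob (Fq q) (fun y => decide ((∑ τ ∈ q.1 with y ∈ τ.2, W τ) = 1))
      (fun v _ _ => v) 0 (fun v => Proto.const _ v fun _ _ => rfl) (fun _ _ => rfl)
  · intro x hx y hy
    have h1 := h.rep x hx y hy
    have h2 : (∑ τ ∈ C.filter (fun τ => x ∈ τ.1) with y ∈ τ.2, W τ) = val2 C W {x} {y} := by
      unfold val2
      rw [filter_filter]
      simp
    simp only [hFq, hg]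
    rw [h2, h1]
    cases F x y <;> simp

variable [Fintype X] [Fintype Y]

lemma IsSys.restrict {F : X → Y → Bool} {D1 : Finset X} {D2 : Finset Y}
    {C : Finset (Finset X × Finset Y)} {W : Finset X × Finset Y → ℝ} (h : IsSys F D1 D2 C W)
    (L : ℕ) (V1 : Finset X) (V2 : Finset Y) (h1 : V1 ⊆ D1) (h2 : V2 ⊆ D2) :
    ∃ C' W', IsSys F V1 V2 C' W' ∧ C'.card ≤ C.card ∧
      pot L C' Prod.fst ≤ potNE L C (fun τ => τ.1 ∩ V1) ∅ ∧
      pot L C' Prod.snd ≤ potNE L C (fun τ => τ.2 ∩ V2) ∅ := by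
  classical
  set φ : Finset X × Finset Y → Finset X × Finset Y := fun τ => (τ.1 ∩ V1, τ.2 ∩ V2) with hφ
  set W' : Finset X × Finset Y → ℝ := fun ρ => ∑ τ ∈ C with φ τ = ρ, W τ with hW'
  set C' := (C.image φ).filter (fun ρ => (ρ.1 ≠ ∅ ∧ ρ.2 ≠ ∅) ∧ W' ρ ≠ 0) with hC'
  have hval : ∀ P Q, P ⊆ V1 → Q ⊆ V2 → P.Nonempty → Q.Nonempty →
      val2 C' W' P Q = val2 C W P Q := by
    intro P Q hP hQ hP' hQ'
    unfold val2
    have := push C W φ (fun ρ => ρ.1 ≠ ∅ ∧ ρ.2 ≠ ∅) (fun ρ => P ⊆ ρ.1 ∧ Q ⊆ ρ.2)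
      (fun ρ hρ => ⟨(hP'.mono hρ.1).ne_empty, (hQ'.mono hρ.2).ne_empty⟩)
    refine Eq.trans this ?_
    refine sum_congr ?_ (fun _ _ => rfl)
    ext τ
    simp only [mem_filter, hφ, subset_inter_iff, hP, hQ, and_true]
  refine ⟨C', W', ⟨fun ρ hρ => (mem_filter.1 hρ).2.2, ?_, ?_⟩,
    (card_filter_le _ _).trans card_image_le, ?_, ?_⟩
  · intro P Q hP hQ hP' hQ'
    rw [hval P Q hP hQ hP' hQ']
    exact h.bool P Q (hP.trans h1) (hQ.trans h2) hP' hQ'
  · intro x hx y hy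
    rw [hval _ _ (by simpa using hx) (by simpa using hy) (by simp) (by simp)]
    exact h.rep x (h1 hx) y (h2 hy)
  · exact pot_image_le L C φ C' (filter_subset _ _) Prod.fst ∅
      (fun ρ hρ => (mem_filter.1 hρ).2.1.1)
  · exact pot_image_le L C φ C' (filter_subset _ _) Prod.snd ∅
      (fun ρ hρ => (mem_filter.1 hρ).2.1.2)

omit [Fintype X] [Fintype Y] in
lemma card_small_subsets {α : Type*} [DecidableEq α] (C : Finset α) (L k : ℕ) (hL : 1 ≤ L)
    (hC : C.card < 2 ^ L) :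
    ((range (k + 1)).biUnion (fun i => C.powersetCard i)).card + 1 ≤ 2 ^ (L * (k + 1)) := by
  have h1 : ((range (k + 1)).biUnion (fun i => C.powersetCard i)).card ≤
      ∑ i ∈ range (k + 1), (2 ^ L) ^ i := by
    refine card_biUnion_le.trans (sum_le_sum (fun i _ => ?_))
    rw [card_powersetCard]
    exact (Nat.choose_le_pow _ _).trans (Nat.pow_le_pow_left hC.le _)
  have h2 : 2 ≤ 2 ^ L := by
    calc 2 = 2 ^ 1 := by norm_num
      _ ≤ 2 ^ L := Nat.pow_le_pow_right (by norm_num) hL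
  have h3 := Nat.geomSum_lt (s := range (k + 1)) (n := k + 1) h2 (fun i hi => mem_range.1 hi)
  rw [pow_mul]
  omega

theorem main_ind (F : X → Y → Bool) (L k N : ℕ) (hL : 1 ≤ L) (hk : 2 * L ^ 2 ≤ k)
    (hN : N + 1 = 16 * L * (k + 2)) (j : ℕ) :
    ∀ (D1 : Finset X) (D2 : Finset Y) (C : Finset (Finset X × Finset Y))
      (W : Finset X × Finset Y → ℝ), IsSys F D1 D2 C W → C.card < 2 ^ L →
      (pot L C Prod.fst + pot L C Prod.snd) * N ^ j < (N + 1) ^ j →
      PD F D1 D2 (1 + 2 * k + j * (L * (k + 1))) := by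
  classical
  have hk1 : 1 ≤ k := by nlinarith
  induction j with
  | zero =>
    intro D1 D2 C W h hC hΦ
    have := le_pot L C Prod.fst hC
    simp only [pow_zero, mul_one] at hΦ
    exact h.base.mono (by omega)
  | succ j ih =>
    intro D1 D2 C W h hC hΦ
    by_cases hsmall : C.card ≤ 2 * k
    · exact h.base.mono (by omega)
    set e := C.card / (8 * (k + 2)) with he
    have he1 : 8 * (k + 2) * e ≤ C.card := Nat.mul_div_le _ _
    have he2 : C.card < 8 * (k + 2) * (e + 1) := Nat.lt_mul_div_succ _ (by omega)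
    have hnum : (k + 2) * (4 * e) + k < C.card := by
      have : 8 * (k + 2) * e = 2 * ((k + 2) * (4 * e)) := by ring
      omega
    set Ts := (range (k + 1)).biUnion (fun i => C.powersetCard i) with hTs
    have hTsmem : ∀ S, S ⊆ C → S.card ≤ k → S ∈ Ts := fun S h1 h2 =>
      mem_biUnion.2 ⟨S.card, mem_range.2 (by omega), mem_powersetCard.2 ⟨h1, rfl⟩⟩
    have hTscard := card_small_subsets C L k hL hC
    rw [← hTs] at hTscard
    obtain ⟨Ps1, V1, a1, a2, a3, a4, a5⟩ := cover (fun S => com Prod.fst univ S)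
      (fun V => ¬ Rich C Prod.fst (e + 1) V) _ Ts D1 le_rfl
    obtain ⟨Ps2, V2, b1, b2, b3, b4, b5⟩ := cover (fun S => com Prod.snd univ S)
      (fun V => ¬ Rich C Prod.snd (e + 1) V) _ Ts D2 le_rfl
    have hc1 : ∀ S, V1 ∩ com Prod.fst univ S = com (Prod.fst : Finset X × Finset Y → _) V1 S := by
      intro S
      ext x
      simp [mem_com]
    have hc2 : ∀ S, V2 ∩ com Prod.snd univ S = com (Prod.snd : Finset X × Finset Y → _) V2 S := by
      intro S
      ext x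
      simp [mem_com]
    have hor : V1 = ∅ ∨ V2 = ∅ := by
      by_contra hcon
      push Not at hcon
      refine key C W L k e V1 V2 hC hk hk1 hnum h.nz
        (fun P Q hP hQ => h.bool P Q (hP.trans a3) (hQ.trans b3)) hcon.1 hcon.2 ?_ ?_
      · intro S h1 h2 h3
        have := a5 S (hTsmem S h1 h2) (by rw [hc1]; exact h3)
        rw [hc1] at this
        exact not_not.1 this
      · intro S h1 h2 h3
        have := b5 S (hTsmem S h1 h2) (by rw [hc2]; exact h3)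
        rw [hc2] at this
        exact not_not.1 this
    have hΦ1 := pot_le L C Prod.fst
    have hΦ2 := pot_le L C Prod.snd
    have hnext : ∀ Φ' : ℕ, Φ' + (e + 1) ≤ pot L C Prod.fst + pot L C Prod.snd →
        Φ' * N ^ j < (N + 1) ^ j := by
      intro Φ' hΦ'
      set Φ := pot L C Prod.fst + pot L C Prod.snd with hΦdef
      have h1 : Φ ≤ (N + 1) * (e + 1) := by
        have h2 : L * C.card ≤ L * (8 * (k + 2) * (e + 1)) := Nat.mul_le_mul_left _ he2.le
        have h3 : (N + 1) * (e + 1) = 2 * (L * (8 * (k + 2) * (e + 1))) := by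
          rw [hN]
          ring
        omega
      have h2 : (N + 1) * Φ' ≤ N * Φ := by
        have h3 : (N + 1) * (Φ' + (e + 1)) ≤ (N + 1) * Φ := Nat.mul_le_mul_left _ hΦ'
        have h4 : (N + 1) * (Φ' + (e + 1)) = (N + 1) * Φ' + (N + 1) * (e + 1) := by ring
        have h5 : (N + 1) * Φ = N * Φ + Φ := by ring
        omega
      have h3 : (N + 1) * (Φ' * N ^ j) < (N + 1) * (N + 1) ^ j := by
        calc (N + 1) * (Φ' * N ^ j) = ((N + 1) * Φ') * N ^ j := by ring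
          _ ≤ (N * Φ) * N ^ j := Nat.mul_le_mul_right _ h2
          _ = Φ * N ^ (j + 1) := by ring
          _ < (N + 1) ^ (j + 1) := hΦ
          _ = (N + 1) * (N + 1) ^ j := by ring
      exact Nat.lt_of_mul_lt_mul_left h3
    have ecost : 1 + 2 * k + (j + 1) * (L * (k + 1)) =
        (1 + 2 * k + j * (L * (k + 1))) + L * (k + 1) := by ring
    rw [ecost]
    rcases hor with hV | hV
    · refine PD.stepX Ps1 (by omega) (fun x hx => ?_) (fun P hP => ?_)
      · rcases a4 x hx with h1 | h1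
        · rw [hV] at h1
          simp at h1
        · exact h1
      · obtain ⟨C', W', h1, h2, h3, h4⟩ := h.restrict L P D2 (a2 P hP).2 (subset_refl _)
        have h5 := poor_drop L C Prod.fst (e + 1) P hC (a2 P hP).1
        have h6 := potNE_le L C Prod.snd D2 hC
        exact ih P D2 C' W' h1 (by omega) (hnext _ (by omega))
    · refine PD.stepY Ps2 (by omega) (fun y hy => ?_) (fun P hP => ?_)
      · rcases b4 y hy with h1 | h1
        · rw [hV] at h1
          simp at h1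
        · exact h1
      · obtain ⟨C', W', h1, h2, h3, h4⟩ := h.restrict L D1 P (subset_refl _) (b2 P hP).2
        have h5 := poor_drop L C Prod.snd (e + 1) P hC (b2 P hP).1
        have h6 := potNE_le L C Prod.fst D1 hC
        exact ih D1 P C' W' h1 (by omega) (hnext _ (by omega))

omit [Fintype X] [Fintype Y] in
lemma bern (N : ℕ) (hN : 1 ≤ N) : 2 * N ^ N ≤ (N + 1) ^ N := by
  have h1 : (0 : ℝ) < N := by exact_mod_cast hN
  have h2 := one_add_mul_le_pow (a := (1 / N : ℝ)) (by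
    have : (0 : ℝ) ≤ 1 / N := by positivity
    linarith) N
  have h3 : (1 : ℝ) + N * (1 / N) = 2 := by
    field_simp
    norm_num
  have h4 : ((N : ℝ) + 1) ^ N = (1 + 1 / N) ^ N * (N : ℝ) ^ N := by
    rw [← mul_pow]
    congr 1
    field_simp
  have h5 : (2 : ℝ) * (N : ℝ) ^ N ≤ ((N : ℝ) + 1) ^ N := by
    rw [h4, ← h3]
    exact mul_le_mul_of_nonneg_right h2 (by positivity)
  exact_mod_cast h5

theorem main_sys (F : X → Y → Bool) (C : Finset (Finset X × Finset Y))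
    (W : Finset X × Finset Y → ℝ) (h : IsSys F univ univ C W) (L : ℕ) (hL : 1 ≤ L)
    (hC : C.card < 2 ^ L) : Proto F (400 * L ^ 7) := by
  obtain ⟨N, hN⟩ : ∃ N, N + 1 = 16 * L * (2 * L ^ 2 + 2) := by
    refine ⟨16 * L * (2 * L ^ 2 + 2) - 1, ?_⟩
    have : 0 < 16 * L * (2 * L ^ 2 + 2) := by positivity
    omega
  have hN1 : 1 ≤ N := by nlinarith [sq_nonneg L]
  have hΦ : (pot L C Prod.fst + pot L C Prod.snd) * N ^ (N * (2 * L)) <
      (N + 1) ^ (N * (2 * L)) := by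
    have h1 := pot_le L C Prod.fst
    have h2 := pot_le L C Prod.snd
    have h3 : 2 * L ≤ 2 ^ L := by
      obtain ⟨M, rfl⟩ : ∃ M, L = M + 1 := ⟨L - 1, by omega⟩
      have := Nat.lt_two_pow_self (n := M)
      rw [pow_succ]
      omega
    have h4 : pot L C Prod.fst + pot L C Prod.snd < 2 ^ (2 * L) := by
      have h5 : L * C.card < L * 2 ^ L := Nat.mul_lt_mul_of_pos_left hC (by omega)
      have h6 : (2 * L) * 2 ^ L ≤ 2 ^ L * 2 ^ L := Nat.mul_le_mul_right _ h3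
      have h7 : 2 ^ (2 * L) = 2 ^ L * 2 ^ L := by rw [two_mul, pow_add]
      have h8 : (2 * L) * 2 ^ L = 2 * (L * 2 ^ L) := by ring
      omega
    calc (pot L C Prod.fst + pot L C Prod.snd) * N ^ (N * (2 * L))
        < 2 ^ (2 * L) * N ^ (N * (2 * L)) := Nat.mul_lt_mul_of_pos_right h4 (by positivity)
      _ = (2 * N ^ N) ^ (2 * L) := by rw [mul_pow, ← pow_mul]
      _ ≤ ((N + 1) ^ N) ^ (2 * L) := Nat.pow_le_pow_left (bern N hN1) _
      _ = (N + 1) ^ (N * (2 * L)) := by rw [← pow_mul]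
  obtain ⟨F', h1, h2⟩ := main_ind F L (2 * L ^ 2) N hL le_rfl hN (N * (2 * L)) univ univ C W h hC hΦ
  have e : F' = F := by
    funext x y
    exact h2 x (mem_univ _) y (mem_univ _)
  rw [e] at h1
  refine h1.mono ?_
  have p1 : 1 ≤ L ^ 2 := Nat.one_le_pow _ _ hL
  have p2 : N ≤ 64 * L ^ 3 := by
    have : 16 * L * (2 * L ^ 2 + 2) ≤ 16 * L * (4 * L ^ 2) := Nat.mul_le_mul_left _ (by omega)
    have e2 : 16 * L * (4 * L ^ 2) = 64 * L ^ 3 := by ring
    omega
  have p3 : N * (2 * L) * (L * (2 * L ^ 2 + 1)) ≤ (64 * L ^ 3) * (2 * L) * (L * (3 * L ^ 2)) :=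
    Nat.mul_le_mul (Nat.mul_le_mul_right _ p2) (Nat.mul_le_mul_left _ (by omega))
  have p4 : (64 * L ^ 3) * (2 * L) * (L * (3 * L ^ 2)) = 384 * L ^ 7 := by ring
  have p5 : L ^ 2 ≤ L ^ 7 := Nat.pow_le_pow_right hL (by norm_num)
  omega

end

end Pool.Agent.H710Z.LR
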