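import Pool.Agent.H710Z.LR.Main

/-! Meet matrices: Moebius expansion, rank, and the final bound. -/

set_option autoImplicit false

namespace Pool.Agent.H710Z.LR

open Finset Pool.Agent.H630R2.LR

section
variable {L : Type*} [SemilatticeInf L] [Fintype L]

open Classical in
/-- the zeta matrix -/
noncomputable def zeta (L : Type*) [SemilatticeInf L] : Matrix L L ℝ :=
  Matrix.of (fun z m => if m ≤ z then 1 else 0)

lemma zeta_unit [DecidableEq L] : IsUnit (zeta L) := by
  classical
  rw [← Matrix.mulVec_injective_iff_isUnit]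
  have key : ∀ c : L → ℝ, (zeta L).mulVec c = 0 → c = 0 := by
    intro c hc
    funext z
    induction z using (wellFounded_lt (α := L)).induction with
    | _ z ih =>
      have h1 := congrFun hc z
      simp only [Matrix.mulVec, dotProduct, zeta, Matrix.of_apply, Pi.zero_apply] at h1
      rw [Finset.sum_eq_single z] at h1
      · simpa using h1
      · intro m _ hm
        by_cases h2 : m ≤ z
        · have := ih m (lt_of_le_of_ne h2 hm)
          simp only [Pi.zero_apply] at this
          simp [this]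
        · simp [h2]
      · intro h
        exact absurd (mem_univ _) h
  intro c c' h
  have := key (c - c') (by rw [Matrix.mulVec_sub, h, sub_self])
  exact sub_eq_zero.1 this

open Classical in
lemma expansion (f : L → Bool) : ∃ c : L → ℝ,
    (∀ z, ∑ m with m ≤ z, c m = if f z then 1 else 0) ∧
    (univ.filter (fun m => c m ≠ 0)).card =
      (Matrix.of (fun x y : L => if f (x ⊓ y) then (1 : ℝ) else 0)).rank := by
  have hu := zeta_unit (L := L)
  obtain ⟨c, hc⟩ := (Matrix.mulVec_surjective_iff_isUnit.2 hu) (fun z => if f z then 1 else 0)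
  have h1 : ∀ z, ∑ m with m ≤ z, c m = if f z then 1 else 0 := by
    intro z
    have := congrFun hc z
    simp only [Matrix.mulVec, dotProduct, zeta, Matrix.of_apply] at this
    rw [← this, sum_filter]
    refine sum_congr rfl (fun m _ => ?_)
    split_ifs <;> simp
  refine ⟨c, h1, ?_⟩
  have h2 : Matrix.of (fun x y : L => if f (x ⊓ y) then (1 : ℝ) else 0) =
      zeta L * Matrix.diagonal c * (zeta L).transpose := by
    ext x y
    rw [Matrix.of_apply, ← h1, Matrix.mul_apply, sum_filter]
    refine sum_congr rfl (fun m _ => ?_)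
    rw [Matrix.mul_diagonal]
    simp only [zeta, Matrix.of_apply, Matrix.transpose_apply, le_inf_iff]
    by_cases hx : m ≤ x <;> by_cases hy : m ≤ y <;> simp [hx, hy]
  have hd : IsUnit (zeta L).det := (Matrix.isUnit_iff_isUnit_det _).1 hu
  rw [h2, Matrix.rank_mul_eq_left_of_isUnit_det _ _ (by rw [Matrix.det_transpose]; exact hd),
    Matrix.rank_mul_eq_right_of_isUnit_det _ _ hd, Matrix.rank_diagonal, Fintype.card_subtype]

theorem meet_proto (f : L → Bool) :
    Proto (fun x y : L => f (x ⊓ y)) (400 * (Nat.log 2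
      (Matrix.of (fun x y : L => if f (x ⊓ y) then (1 : ℝ) else 0)).rank + 1) ^ 7) := by
  classical
  obtain ⟨c, h1, h2⟩ := expansion f
  set r := (Matrix.of (fun x y : L => if f (x ⊓ y) then (1 : ℝ) else 0)).rank with hr
  set M := univ.filter (fun m => c m ≠ 0) with hM
  set φ : L → Finset L × Finset L :=
    fun m => (univ.filter (fun x => m ≤ x), univ.filter (fun x => m ≤ x)) with hφ
  set W : Finset L × Finset L → ℝ := fun ρ => ∑ m ∈ M with φ m = ρ, c m with hW
  set C := (M.image φ).filter (fun ρ => True ∧ W ρ ≠ 0) with hC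
  have hval : ∀ (P Q : Finset L) (hP : P.Nonempty) (hQ : Q.Nonempty),
      val2 C W P Q = if f (P.inf' hP id ⊓ Q.inf' hQ id) then 1 else 0 := by
    intro P Q hP hQ
    unfold val2
    have := push M c φ (fun _ => True) (fun ρ => P ⊆ ρ.1 ∧ Q ⊆ ρ.2) (fun _ _ => trivial)
    refine Eq.trans this ?_
    rw [← h1]
    refine sum_subset ?_ ?_
    · intro m hm
      simp only [mem_filter, hφ, mem_univ, true_and, le_inf_iff, le_inf'_iff, id] at hm ⊢
      exact ⟨fun x hx => (mem_filter.1 (hm.2.1 hx)).2, fun x hx => (mem_filter.1 (hm.2.2 hx)).2⟩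
    · intro m hm hm'
      simp only [mem_filter, hφ, hM, mem_univ, true_and, le_inf_iff, le_inf'_iff, id] at hm hm'
      by_contra h
      exact hm' ⟨h, fun x hx => mem_filter.2 ⟨mem_univ _, hm.1 x hx⟩,
        fun x hx => mem_filter.2 ⟨mem_univ _, hm.2 x hx⟩⟩
  refine main_sys _ C W ⟨fun ρ hρ => (mem_filter.1 hρ).2.2, ?_, ?_⟩ _ (by omega) ?_
  · intro P Q _ _ hP hQ
    rw [hval P Q hP hQ]
    split_ifs <;> simp
  · intro x _ y _
    rw [hval {x} {y} (by simp) (by simp)]
    simp
  · have h3 : C.card ≤ r := by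
      rw [← h2]
      exact (card_filter_le _ _).trans card_image_le
    exact lt_of_le_of_lt h3 (Nat.lt_pow_succ_log_self (by norm_num) r)

theorem meet_final (f : L → Bool) : ∃ c : ℕ, Proto (fun x y : L => f (x ⊓ y)) c ∧
    (c : ℝ) ≤ 400 * (Real.logb 2
      ((Matrix.of (fun x y : L => if f (x ⊓ y) then (1 : ℝ) else 0)).rank : ℝ) + 1) ^ 7 := by
  refine ⟨_, meet_proto f, ?_⟩
  set r := (Matrix.of (fun x y : L => if f (x ⊓ y) then (1 : ℝ) else 0)).rank
  have h := Real.natLog_le_logb r 2
  push_cast at h ⊢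
  have h0 : (0 : ℝ) ≤ (Nat.log 2 r : ℝ) + 1 := by positivity
  have := pow_le_pow_left₀ h0 (show (Nat.log 2 r : ℝ) + 1 ≤ Real.logb 2 r + 1 by linarith) 7
  linarith

end

end Pool.Agent.H710Z.LR
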