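import Pool.Agent.H630R2.LR.M2

/-! Sparse Boolean polynomials have few disjoint sensitive blocks of zeros. -/

set_option autoImplicit false

namespace Pool.Agent.H710Z.LR

open Finset

section
variable {J : Type*} [DecidableEq J]

lemma card_small_half (S : Finset J) :
    2 * (S.powerset.filter (fun U => 2 * U.card < S.card)).card ≤ 2 ^ S.card := by
  set A := S.powerset.filter (fun U => 2 * U.card < S.card) with hA
  set B := S.powerset.filter (fun U => ¬ (2 * U.card < S.card)) with hB
  have h1 : A.card + B.card = 2 ^ S.card := by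
    rw [hA, hB, card_filter_add_card_filter_not, card_powerset]
  have h2 : A.card ≤ B.card := by
    refine card_le_card_of_injOn (fun U => S \ U) ?_ ?_
    · intro U hU
      simp only [hA, hB, coe_filter, mem_powerset, Set.mem_setOf_eq] at hU ⊢
      refine ⟨sdiff_subset, ?_⟩
      rw [card_sdiff_of_subset hU.1]
      have := card_le_card hU.1
      omega
    · intro U hU V hV h
      simp only [hA, coe_filter, mem_powerset, Set.mem_setOf_eq] at hU hV
      have h' : S \ U = S \ V := h
      rw [← Finset.sdiff_sdiff_eq_self hU.1, h', Finset.sdiff_sdiff_eq_self hV.1]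
  omega

lemma card_supsets (S T : Finset J) (hT : T ⊆ S) :
    (S.powerset.filter (fun U => T ⊆ U)).card ≤ 2 ^ (S.card - T.card) := by
  rw [← card_sdiff_of_subset hT, ← card_powerset]
  refine card_le_card_of_injOn (fun U => U \ T) ?_ ?_
  · intro U hU
    simp only [coe_filter, mem_powerset, Set.mem_setOf_eq, coe_powerset, Set.mem_preimage,
      Set.mem_powerset_iff, coe_subset] at hU ⊢
    exact sdiff_subset_sdiff hU.1 (subset_refl _)
  · intro U hU V hV h
    simp only [coe_filter, mem_powerset, Set.mem_setOf_eq] at hU hV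
    have h' : U \ T = V \ T := h
    rw [← sdiff_union_of_subset hU.2, h', sdiff_union_of_subset hV.2]

/-- a large subset containing no large monomial -/
lemma exists_low {α : Type*} (C : Finset α) (m : α → Finset J) (S : Finset J) (L : ℕ)
    (hC : C.card < 2 ^ L) :
    ∃ U, U ⊆ S ∧ S.card ≤ 2 * U.card ∧ ∀ τ ∈ C, m τ ⊆ U → (m τ).card ≤ L := by
  classical
  by_contra hcon
  push Not at hcon
  set A := S.powerset.filter (fun U => 2 * U.card < S.card) with hA
  set C' := C.filter (fun τ => m τ ⊆ S ∧ L < (m τ).card) with hC'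
  have hsub : S.powerset ⊆ A ∪ C'.biUnion (fun τ => S.powerset.filter (fun U => m τ ⊆ U)) := by
    intro U hU
    rw [mem_union]
    by_cases h : 2 * U.card < S.card
    · left
      exact mem_filter.2 ⟨hU, h⟩
    · right
      obtain ⟨τ, h1, h2, h3⟩ := hcon U (mem_powerset.1 hU) (by omega)
      exact mem_biUnion.2 ⟨τ, mem_filter.2 ⟨h1, h2.trans (mem_powerset.1 hU), h3⟩,
        mem_filter.2 ⟨hU, h2⟩⟩
  have h1 := card_le_card hsub
  rw [card_powerset] at h1
  have h2 := card_union_le A (C'.biUnion (fun τ => S.powerset.filter (fun U => m τ ⊆ U)))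
  have h3 := card_small_half S
  rw [← hA] at h3
  rcases C'.eq_empty_or_nonempty with he | ⟨τ₀, hτ₀⟩
  · rw [he] at h1 h2
    simp only [biUnion_empty, union_empty] at h1
    have : 0 < 2 ^ S.card := by positivity
    omega
  · have hL : L + 1 ≤ S.card := by
      have := mem_filter.1 hτ₀
      have := card_le_card this.2.1
      omega
    have h4 : (C'.biUnion (fun τ => S.powerset.filter (fun U => m τ ⊆ U))).card ≤
        C'.card * 2 ^ (S.card - (L + 1)) := by
      refine card_biUnion_le.trans ?_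
      refine (sum_le_card_nsmul _ _ _ (fun τ hτ => ?_)).trans (le_of_eq (smul_eq_mul _ _))
      have h5 := (mem_filter.1 hτ).2
      refine (card_supsets S (m τ) h5.1).trans ?_
      exact Nat.pow_le_pow_right (by norm_num) (by omega)
    have h5 : C'.card < 2 ^ L := lt_of_le_of_lt (card_filter_le _ _) hC
    have h6 : 2 ^ S.card = 2 * (2 ^ L * 2 ^ (S.card - (L + 1))) := by
      rw [← pow_add, ← pow_succ']
      congr 1
      omega
    have h7 : C'.card * 2 ^ (S.card - (L + 1)) < 2 ^ L * 2 ^ (S.card - (L + 1)) :=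
      Nat.mul_lt_mul_of_pos_right h5 (by positivity)
    omega

/-- a Boolean polynomial with fewer than `2^L` monomials has sensitivity at most `2 L^2` at `0` -/
theorem sparse_sens {α : Type*} (C : Finset α) (W : α → ℝ) (m : α → Finset J) (S : Finset J)
    (L : ℕ) (hC : C.card < 2 ^ L)
    (h01 : ∀ T, T ⊆ S → (∑ τ ∈ C with m τ ⊆ T, W τ) = 0 ∨ (∑ τ ∈ C with m τ ⊆ T, W τ) = 1)
    (hs : ∀ j ∈ S, (∑ τ ∈ C with m τ ⊆ {j}, W τ) ≠ ∑ τ ∈ C with m τ ⊆ ∅, W τ) :
    S.card ≤ 2 * L ^ 2 := by
  classical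
  obtain ⟨U, hUS, hU, hlow⟩ := exists_low C m S L hC
  set c : Finset J → ℝ := fun T => if T ⊆ U then ∑ τ ∈ C with m τ = T, W τ else 0 with hc
  have hsum : ∀ T, T ⊆ U → ∑ T' ∈ T.powerset, c T' = ∑ τ ∈ C with m τ ⊆ T, W τ := by
    intro T hT
    rw [← Finset.sum_fiberwise_of_maps_to (s := C.filter (fun τ => m τ ⊆ T)) (t := T.powerset)
      (g := m) (fun τ hτ => mem_powerset.2 (mem_filter.1 hτ).2)]
    refine sum_congr rfl (fun T' hT' => ?_)
    have h1 := mem_powerset.1 hT'
    simp only [hc, if_pos (h1.trans hT)]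
    refine sum_congr ?_ (fun _ _ => rfl)
    ext τ
    simp only [mem_filter]
    constructor
    · rintro ⟨h2, h3⟩
      exact ⟨⟨h2, h3 ▸ h1⟩, h3⟩
    · rintro ⟨⟨h2, _⟩, h3⟩
      exact ⟨h2, h3⟩
  set e : Fin U.card → J := fun i => (U.equivFin.symm i : J) with he
  have heU : ∀ i, e i ∈ U := fun i => (U.equivFin.symm i).2
  have hinj : Function.Injective e := fun i j h =>
    U.equivFin.symm.injective (Subtype.ext h)
  have key := Pool.Agent.H630R2.LR.MARKOV.block_bound (b := U.card) (k := L) c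
    (fun i => {e i}) ?_ ?_ ?_ ?_
  · omega
  · intro i j hij
    simp only [disjoint_singleton]
    exact fun h => hij (hinj h)
  · intro T hT
    simp only [hc]
    split_ifs with h
    · refine sum_eq_zero (fun τ hτ => ?_)
      have h1 := mem_filter.1 hτ
      have := hlow τ h1.1 (h1.2 ▸ h)
      rw [h1.2] at this
      omega
    · rfl
  · intro Y
    have hY : Y.biUnion (fun i => ({e i} : Finset J)) ⊆ U := by
      intro z hz
      obtain ⟨i, _, hi⟩ := mem_biUnion.1 hz
      rw [mem_singleton.1 hi]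
      exact heU i
    rw [hsum _ hY]
    exact h01 _ (hY.trans hUS)
  · intro j
    have hj : ({e j} : Finset J) ⊆ U := by simp [heU j]
    rw [hsum _ hj]
    have h0 : c ∅ = ∑ τ ∈ C with m τ ⊆ ∅, W τ := by
      rw [← hsum ∅ (empty_subset _)]
      simp
    rw [h0]
    exact hs _ (hUS (heU j))

lemma moebius_zero (u : Finset J → ℝ) (E : Finset J)
    (h : ∀ D, D ⊆ E → ∑ D' ∈ D.powerset, u D' = u ∅) :
    ∀ D, D ⊆ E → D.Nonempty → u D = 0 := by
  intro D
  induction D using Finset.strongInduction with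
  | H D ih =>
    intro hD hne
    have h1 := h D hD
    have hne' : D ≠ ∅ := hne.ne_empty
    have h2 : ∑ D' ∈ D.powerset, u D' = u ∅ + u D := by
      rw [← Finset.sum_subset (s₁ := ({∅, D} : Finset (Finset J)))]
      · rw [sum_pair hne'.symm]
      · intro x hx
        simp only [mem_insert, mem_singleton] at hx
        rcases hx with rfl | rfl <;> simp
      · intro x hx hx'
        simp only [mem_insert, mem_singleton, not_or] at hx'
        have h3 := mem_powerset.1 hx
        exact ih x (Finset.ssubset_iff_subset_ne.2 ⟨h3, hx'.2⟩) (h3.trans hD)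
          (nonempty_iff_ne_empty.2 hx'.1)
    linarith

end

section
variable {Z α : Type*} [DecidableEq Z] [DecidableEq α]

/-- the elements of `V` lying in all `N τ`, `τ ∈ S` -/
def com (N : α → Finset Z) (V : Finset Z) (S : Finset α) : Finset Z :=
  V.filter (fun z => ∀ τ ∈ S, z ∈ N τ)

lemma mem_com {N : α → Finset Z} {V : Finset Z} {S : Finset α} {z : Z} :
    z ∈ com N V S ↔ z ∈ V ∧ ∀ τ ∈ S, z ∈ N τ := by
  simp [com]

/-- the total weight of the atoms containing `R` -/
def val (C : Finset α) (W : α → ℝ) (N : α → Finset Z) (R : Finset Z) : ℝ :=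
  ∑ τ ∈ C with R ⊆ N τ, W τ

theorem lemmaA (C : Finset α) (W : α → ℝ) (N : α → Finset Z) (V : Finset Z) (S : Finset α)
    (L : ℕ) (hC : C.card < 2 ^ L) (hS : S ⊆ C) (hS2 : 2 ≤ S.card)
    (hW : ∀ τ ∈ C, W τ ≠ 0)
    (h01 : ∀ R, com N V S ⊆ R → R ⊆ V → val C W N R = 0 ∨ val C W N R = 1)
    (good : ∀ j ∈ S, ∀ σ ∈ C, N σ ∩ com N V (S.erase j) = N j ∩ com N V (S.erase j) → σ = j) :
    S.card ≤ 2 * L ^ 2 := by
  classical
  set P : Finset Z := V.filter (fun z => ∃ l ∈ S, ∀ σ ∈ S.erase l, z ∈ N σ) with hP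
  set E : α → Finset Z := fun j => (com N V (S.erase j)).filter (fun z => z ∉ N j) with hE
  have hPV : P ⊆ V := filter_subset _ _
  have hEP : ∀ j ∈ S, E j ⊆ P := by
    intro j hj z hz
    simp only [hE, mem_filter, mem_com] at hz
    exact mem_filter.2 ⟨hz.1.1, j, hj, hz.1.2⟩
  have hcomP : ∀ z ∈ com N V S, z ∈ P ∧ ∀ j ∈ S, z ∉ E j := by
    intro z hz
    rw [mem_com] at hz
    obtain ⟨l, hl⟩ : S.Nonempty := card_pos.1 (by omega)
    refine ⟨mem_filter.2 ⟨hz.1, l, hl, fun σ hσ => hz.2 σ (mem_of_mem_erase hσ)⟩, ?_⟩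
    intro j hj hzj
    exact (mem_filter.1 hzj).2 (hz.2 j hj)
  have hdisj : ∀ j ∈ S, ∀ l ∈ S, j ≠ l → ∀ z ∈ E j, z ∉ E l := by
    intro j hj l _ hjl z hz hz'
    simp only [hE, mem_filter, mem_com] at hz hz'
    exact hz.2 (hz'.1.2 j (mem_erase.2 ⟨hjl, hj⟩))
  have hblock : ∀ j ∈ S, ∃ D, D ⊆ E j ∧ val C W N (P \ D) ≠ val C W N P := by
    intro j hj
    by_contra hcon
    push Not at hcon
    set u : Finset Z → ℝ := fun D => ∑ σ ∈ C with (P \ E j ⊆ N σ ∧ E j \ N σ = D), W σ with hu
    have hsum : ∀ D, D ⊆ E j → ∑ D' ∈ D.powerset, u D' = val C W N (P \ D) := by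
      intro D hD
      unfold val
      rw [← Finset.sum_fiberwise_of_maps_to (s := C.filter (fun σ => P \ D ⊆ N σ))
        (t := D.powerset) (g := fun σ => E j \ N σ)]
      · refine sum_congr rfl (fun D' hD' => ?_)
        have h1 := mem_powerset.1 hD'
        simp only [hu]
        refine sum_congr ?_ (fun _ _ => rfl)
        ext σ
        simp only [mem_filter]
        constructor
        · rintro ⟨h2, h3, h4⟩
          refine ⟨⟨h2, ?_⟩, h4⟩
          intro z hz
          rw [mem_sdiff] at hz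
          by_cases hzE : z ∈ E j
          · by_contra hzN
            exact hz.2 (h1 (h4 ▸ mem_sdiff.2 ⟨hzE, hzN⟩))
          · exact h3 (mem_sdiff.2 ⟨hz.1, hzE⟩)
        · rintro ⟨⟨h2, h3⟩, h4⟩
          refine ⟨h2, ?_, h4⟩
          intro z hz
          rw [mem_sdiff] at hz
          exact h3 (mem_sdiff.2 ⟨hz.1, fun h => hz.2 (hD h)⟩)
      · intro σ hσ
        rw [mem_powerset]
        intro z hz
        rw [mem_sdiff] at hz
        by_contra hzD
        exact hz.2 ((mem_filter.1 hσ).2 (mem_sdiff.2 ⟨hEP j hj hz.1, hzD⟩))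
    have hu0 : u ∅ = val C W N P := by
      have := hsum ∅ (empty_subset _)
      simpa using this
    have hz := moebius_zero u (E j) (fun D hD => by rw [hsum D hD, hcon D hD, hu0])
    have hne : (E j).Nonempty := by
      rw [nonempty_iff_ne_empty]
      intro he
      obtain ⟨l, hl⟩ : (S.erase j).Nonempty := card_pos.1 (by rw [card_erase_of_mem hj]; omega)
      have h1 : N l ∩ com N V (S.erase j) = N j ∩ com N V (S.erase j) := by
        ext z
        simp only [mem_inter]
        constructor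
        · rintro ⟨_, h2⟩
          refine ⟨?_, h2⟩
          by_contra h3
          have : z ∈ E j := mem_filter.2 ⟨h2, h3⟩
          rw [he] at this
          simp at this
        · rintro ⟨_, h2⟩
          exact ⟨(mem_com.1 h2).2 l hl, h2⟩
      exact (mem_erase.1 hl).1 (good j hj l (hS (mem_of_mem_erase hl)) h1)
    have h3 := hz (E j) (subset_refl _) hne
    have h4 : C.filter (fun σ => P \ E j ⊆ N σ ∧ E j \ N σ = E j) = {j} := by
      ext σ
      simp only [mem_filter, mem_singleton]
      constructor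
      · rintro ⟨h5, h6, h7⟩
        refine good j hj σ h5 ?_
        ext z
        simp only [mem_inter]
        constructor
        · rintro ⟨h8, h9⟩
          refine ⟨?_, h9⟩
          by_contra h10
          have h11 : z ∈ E j \ N σ := by
            rw [h7]
            exact mem_filter.2 ⟨h9, h10⟩
          exact (mem_sdiff.1 h11).2 h8
        · rintro ⟨h8, h9⟩
          refine ⟨h6 (mem_sdiff.2 ⟨?_, fun h => (mem_filter.1 h).2 h8⟩), h9⟩
          exact mem_filter.2 ⟨(mem_com.1 h9).1, j, hj, (mem_com.1 h9).2⟩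
      · rintro rfl
        refine ⟨hS hj, ?_, ?_⟩
        · intro z hz
          rw [mem_sdiff] at hz
          obtain ⟨hzV, l, _, hl⟩ := mem_filter.1 hz.1
          by_cases hlj : l = σ
          · subst hlj
            by_contra h8
            exact hz.2 (mem_filter.2 ⟨mem_com.2 ⟨hzV, hl⟩, h8⟩)
          · exact hl σ (mem_erase.2 ⟨fun h => hlj h.symm, hj⟩)
        · ext z
          simp only [mem_sdiff]
          exact ⟨fun h => h.1, fun h => ⟨h, (mem_filter.1 h).2⟩⟩
    simp only [hu] at h3
    rw [h4, sum_singleton] at h3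
    exact hW j (hS hj) h3
  choose! D hDE hD using hblock
  set C' := C.filter (fun σ => P \ S.biUnion D ⊆ N σ) with hC'
  set m : α → Finset α := fun σ => S.filter (fun j => ¬ D j ⊆ N σ) with hm
  have hval : ∀ T, T ⊆ S → (∑ σ ∈ C' with m σ ⊆ T, W σ) = val C W N (P \ T.biUnion D) := by
    intro T hT
    unfold val
    refine sum_congr ?_ (fun _ _ => rfl)
    ext σ
    simp only [hC', mem_filter]
    constructor
    · rintro ⟨⟨h1, h2⟩, h3⟩
      refine ⟨h1, ?_⟩
      intro z hz
      rw [mem_sdiff] at hz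
      by_cases hzS : z ∈ S.biUnion D
      · obtain ⟨j, hj, hzj⟩ := mem_biUnion.1 hzS
        by_contra hzN
        have : j ∈ m σ := mem_filter.2 ⟨hj, fun h => hzN (h hzj)⟩
        exact hz.2 (mem_biUnion.2 ⟨j, h3 this, hzj⟩)
      · exact h2 (mem_sdiff.2 ⟨hz.1, hzS⟩)
    · rintro ⟨h1, h2⟩
      refine ⟨⟨h1, ?_⟩, ?_⟩
      · intro z hz
        rw [mem_sdiff] at hz
        refine h2 (mem_sdiff.2 ⟨hz.1, fun h => hz.2 ?_⟩)
        exact biUnion_subset_biUnion_of_subset_left _ hT h
      · intro j hj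
        obtain ⟨hjS, hj2⟩ := mem_filter.1 hj
        by_contra hjT
        apply hj2
        intro z hz
        refine h2 (mem_sdiff.2 ⟨hEP j hjS (hDE j hjS hz), fun h => ?_⟩)
        obtain ⟨l, hl, hzl⟩ := mem_biUnion.1 h
        have hjl : j ≠ l := fun h' => hjT (h' ▸ hl)
        exact hdisj j hjS l (hT hl) hjl z (hDE j hjS hz) (hDE l (hT hl) hzl)
  refine sparse_sens C' W m S L (lt_of_le_of_lt (card_filter_le _ _) hC) ?_ ?_
  · intro T hT
    rw [hval T hT]
    refine h01 _ ?_ (sdiff_subset.trans hPV)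
    intro z hz
    obtain ⟨h1, h2⟩ := hcomP z hz
    refine mem_sdiff.2 ⟨h1, fun h => ?_⟩
    obtain ⟨l, hl, hzl⟩ := mem_biUnion.1 h
    exact h2 l (hT hl) (hDE l (hT hl) hzl)
  · intro j hj
    rw [hval {j} (by simpa using hj), hval ∅ (empty_subset _)]
    simpa using hD j hj

end

end Pool.Agent.H710Z.LR
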